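import Mathlib

/-!
# Switching a linear orthomorphism (MP_2f0703_co)

`f x = a x` outside `U`, `f x = a x + a v` on `U`, `U` invariant under the additions of `v`, `t v`, `t² v`, `t = a / (a + 1)`,
and disjoint from its preimage under `x ↦ a x`.
-/

set_option autoImplicit false

namespace Pool.Agent.H62.SW

open Classical in
/-- the switched map -/
noncomputable def f {F : Type} [Field F] (a v : F) (U : F → Prop) (x : F) : F := a * x + if U x then a * v else 0

structure Sw (F : Type) [Field F] (a v t : F) (U : F → Prop) : Prop where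
  two : (2 : F) = 0
  a0 : a ≠ 0
  a1 : a + 1 ≠ 0
  ht : t * (a + 1) = a
  h1 : ∀ x, U x → U (x + v)
  h2 : ∀ x, U x → U (x + t * v)
  h3 : ∀ x, U x → U (x + t * t * v)
  hd : ∀ x, U x → ¬ U (a * x)

variable {F : Type} [Field F] {a v t : F} {U : F → Prop}

theorem f_in (x : F) (h : U x) : f a v U x = a * x + a * v := by unfold f; rw [if_pos h]

theorem f_out (x : F) (h : ¬ U x) : f a v U x = a * x := by unfold f; rw [if_neg h, add_zero]

theorem Sw.zero (S : Sw F a v t U) : ¬ U 0 := by
  intro h
  have := S.hd 0 h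
  rw [mul_zero] at this
  exact this h

theorem Sw.f_zero (S : Sw F a v t U) : f a v U 0 = 0 := by rw [f_out 0 S.zero, mul_zero]

theorem Sw.neg (S : Sw F a v t U) (x : F) : -x = x := by
  have h := S.two
  linear_combination (-x) * h

theorem Sw.inj (S : Sw F a v t U) {x y : F} (h : f a v U x = f a v U y) : x = y := by
  have two := S.two
  by_cases hx : U x <;> by_cases hy : U y
  · rw [f_in x hx, f_in y hy] at h
    exact mul_left_cancel₀ S.a0 (add_right_cancel h)
  · rw [f_in x hx, f_out y hy] at h
    have h1 : y = x + v := mul_left_cancel₀ S.a0 (by linear_combination -h)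
    exact absurd (h1 ▸ S.h1 x hx) hy
  · rw [f_out x hx, f_in y hy] at h
    have h1 : x = y + v := mul_left_cancel₀ S.a0 (by linear_combination h)
    exact absurd (h1 ▸ S.h1 y hy) hx
  · rw [f_out x hx, f_out y hy] at h
    exact mul_left_cancel₀ S.a0 h

theorem Sw.inj1 (S : Sw F a v t U) {x y : F} (h : f a v U x + x = f a v U y + y) : x = y := by
  have two := S.two
  have ht := S.ht
  by_cases hx : U x <;> by_cases hy : U y
  · rw [f_in x hx, f_in y hy] at h
    exact mul_left_cancel₀ S.a1 (by linear_combination h)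
  · rw [f_in x hx, f_out y hy] at h
    have h1 : y = x + t * v := mul_left_cancel₀ S.a1 (by linear_combination -h - v * ht)
    exact absurd (h1 ▸ S.h2 x hx) hy
  · rw [f_out x hx, f_in y hy] at h
    have h1 : x = y + t * v := mul_left_cancel₀ S.a1 (by linear_combination h - v * ht)
    exact absurd (h1 ▸ S.h2 y hy) hx
  · rw [f_out x hx, f_out y hy] at h
    exact mul_left_cancel₀ S.a1 (by linear_combination h)

/-- `f (f x) + x`, in three cases -/
theorem Sw.ff (S : Sw F a v t U) (x : F) :
    (U x ∧ ¬ U (a * x) ∧ f a v U (f a v U x) + x = (a + 1) * (a + 1) * (x + t * t * v)) ∨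
    (¬ U x ∧ U (a * x) ∧ f a v U (f a v U x) + x = (a + 1) * (a + 1) * x + a * v) ∨
    (¬ U x ∧ ¬ U (a * x) ∧ f a v U (f a v U x) + x = (a + 1) * (a + 1) * x) := by
  have two := S.two
  have ht := S.ht
  by_cases hx : U x
  · left
    refine ⟨hx, S.hd x hx, ?_⟩
    have h1 : ¬ U (a * x + a * v) := by
      have := S.hd _ (S.h1 x hx)
      rwa [mul_add] at this
    rw [f_in x hx, f_out _ h1]
    linear_combination (-(x * a)) * two - (t * (a + 1) + a) * v * ht
  · right
    by_cases hax : U (a * x)
    · left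
      refine ⟨hx, hax, ?_⟩
      rw [f_out x hx, f_in _ hax]
      linear_combination (-(x * a)) * two
    · right
      refine ⟨hx, hax, ?_⟩
      rw [f_out x hx, f_out _ hax]
      linear_combination (-(x * a)) * two

theorem Sw.inj2 (S : Sw F a v t U) {x y : F} (h : f a v U (f a v U x) + x = f a v U (f a v U y) + y) : x = y := by
  have two := S.two
  have ht := S.ht
  have hb : (a + 1) * (a + 1) ≠ 0 := mul_ne_zero S.a1 S.a1
  -- two rules
  have r1 : ∀ x y : F, U x → ¬ U y → (a + 1) * (a + 1) * (x + t * t * v) = (a + 1) * (a + 1) * y → False := by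
    intro x y hx hy e
    have h1 : x + t * t * v = y := mul_left_cancel₀ hb e
    exact hy (h1 ▸ S.h3 x hx)
  have r2 : ∀ x y : F, U (a * x) → ¬ U (a * y) → (a + 1) * (a + 1) * x + a * v = (a + 1) * (a + 1) * y → False := by
    intro x y hx hy e
    have h1 : a * x + t * t * v = a * y := by
      apply mul_left_cancel₀ hb
      linear_combination a * e + (t * (a + 1) + a) * v * ht
    exact hy (h1 ▸ S.h3 _ hx)
  have r3 : ∀ x y : F, U x → U (a * y) → (a + 1) * (a + 1) * (x + t * t * v) = (a + 1) * (a + 1) * y + a * v → False := by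
    intro x y hx hy e
    -- a y + t² v = a x + a t² v, so a (x + t v) = a y
    have h1 : a * (x + t * v) = a * y := by
      apply mul_left_cancel₀ hb
      linear_combination a * e + (a * (a + 1) * v - a * v * (t * (a + 1) + a)) * ht + a * a * v * two
    have h2 := S.hd _ (S.h2 x hx)
    exact h2 (h1 ▸ hy)
  rcases S.ff x with ⟨hx, hax, ex⟩ | ⟨hx, hax, ex⟩ | ⟨hx, hax, ex⟩ <;>
    rcases S.ff y with ⟨hy, hay, ey⟩ | ⟨hy, hay, ey⟩ | ⟨hy, hay, ey⟩ <;> rw [ex, ey] at h
  · exact add_right_cancel (mul_left_cancel₀ hb h)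
  · exact (r3 x y hx hay h).elim
  · exact (r1 x y hx hy h).elim
  · exact (r3 y x hy hax h.symm).elim
  · exact mul_left_cancel₀ hb (add_right_cancel h)
  · exact (r2 x y hax hay h).elim
  · exact (r1 y x hy hx h.symm).elim
  · exact (r2 y x hay hax h.symm).elim
  · exact mul_left_cancel₀ hb h

end Pool.Agent.H62.SW
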