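import Pool.Agent.H62.SW.Sq
import Pool.Agent.H90.DE.Small
import Pool.Agent.H90.DE.Root
import Pool.Agent.H62.GE.Pr

/-!
# Certificates for the switched map, Mersenne exponents (MP_2f0703_co)
-/

set_option autoImplicit false

namespace Pool.Agent.H62.SW

open Pool.Agent.H90.DE

theorem gen_of_prime {F : Type} [Field F] [Fintype F] {M : ℕ} (hcard : Fintype.card F = M + 1) (hM : M.Prime) (a : F)
    (ha0 : a ≠ 0) (ha1 : a ≠ 1) :
    (∀ i j : ℕ, a ^ i = a ^ j → i ≡ j [MOD M]) ∧ a ^ M = 1 ∧ ∀ x : F, x ≠ 0 → ∃ n : ℕ, x = a ^ n := by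
  classical
  obtain ⟨g, hg⟩ : ∃ g : Fˣ, g = Units.mk0 a ha0 := ⟨_, rfl⟩
  have hga : (g : F) = a := by rw [hg]; rfl
  have hc : Nat.card Fˣ = M := by
    rw [Nat.card_eq_fintype_card, Fintype.card_units, hcard]
    rfl
  have ho : orderOf g = M := by
    have h1 : orderOf g ∣ M := hc ▸ orderOf_dvd_natCard g
    rcases (Nat.dvd_prime hM).1 h1 with h | h
    · rw [orderOf_eq_one_iff] at h
      rw [h] at hga
      exact absurd hga.symm ha1
    · exact h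
  refine ⟨fun i j h => ?_, ?_, fun x hx => ?_⟩
  · have h1 : g ^ i = g ^ j := by
      apply Units.ext
      rw [Units.val_pow_eq_pow_val, Units.val_pow_eq_pow_val, hga, h]
    have h2 := pow_eq_pow_iff_modEq.1 h1
    rwa [ho] at h2
  · have h1 := congrArg Units.val (pow_orderOf_eq_one g)
    rwa [Units.val_pow_eq_pow_val, hga, ho] at h1
  · have htop : Subgroup.zpowers g = ⊤ := by
      apply Subgroup.eq_top_of_card_eq
      rw [Nat.card_zpowers, ho, hc]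
    have h1 : Units.mk0 x hx ∈ Subgroup.zpowers g := by rw [htop]; trivial
    rw [← (isOfFinOrder_of_finite g).mem_powers_iff_mem_zpowers] at h1
    obtain ⟨n, hn⟩ := h1
    refine ⟨n, ?_⟩
    have h2 : g ^ n = Units.mk0 x hx := hn
    have h3 := congrArg Units.val h2
    rw [Units.val_pow_eq_pow_val, hga] at h3
    exact h3.symm

/-- `w` is none of the eight elements -/
def nm (k f : ℕ) (xs : List ℕ) (w : ℕ) : Bool := xs.all fun x => decide (powm k f k (w ^^^ x) (2 ^ k - 1) = 1)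

/-- the check -/
def chk8 (k f tb p r e : ℕ) (xs ps ss : List ℕ) : Bool :=
  decide (2 ≤ k) && decide (2 ^ k ≤ f) && decide (f < 2 ^ (k + 1)) && decide (tb < 2 ^ k) &&
  decide (p < 2 ^ k) && decide (r < 2 ^ k) && decide (e < 2 ^ k) &&
  decide (powm k f (k + 1) 2 (2 ^ k) = 2) &&
  decide (powm k f k 2 (2 ^ k - 1) = 1) && decide (powm k f k 3 (2 ^ k - 1) = 1) &&
  decide (mulm k f k tb 3 = 2) &&
  decide (xs.length = 8) && (xs.all fun x => decide (x < 2 ^ k)) &&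
  (xs.all fun x => decide ((x ^^^ 1) ∈ xs) && decide ((x ^^^ tb) ∈ xs) && decide ((x ^^^ mulm k f k tb tb) ∈ xs)) &&
  (xs.all fun x => nm k f xs (mulm k f k 2 x)) &&
  nm k f xs (xs.getD 0 0 ^^^ p) && nm k f xs (xs.getD 0 0 ^^^ r) && nm k f xs (xs.getD 0 0 ^^^ p ^^^ r) &&
  nm k f xs (xs.getD 0 0 ^^^ e) && nm k f xs (xs.getD 0 0 ^^^ p ^^^ e) && nm k f xs (xs.getD 0 0 ^^^ r ^^^ e) &&
  nm k f xs (xs.getD 0 0 ^^^ p ^^^ r ^^^ e) &&
  ((List.range 8).all fun i => decide (powm k f k 2 (ps.getD i 0) = xs.getD i 0) && decide (ps.getD i 0 < 2 ^ k) &&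
    decide (ss.getD i 0 < 8) && decide (xs.getD i 0 ^^^ 1 = xs.getD (ss.getD i 0) 0)) &&
  ((List.range 7).all fun i => decide (ps.getD i 0 < ps.getD (i + 1) 0)) && decide (ps.getD 7 0 < ps.getD 0 0 + (2 ^ k - 1)) &&
  ((List.range 8).all fun i => (List.range 9).any fun m => decide (((fun i => ss.getD (i % 8) 0 + 1)^[m] i) % 8 = 0))

theorem of_chk8 {k f tb p r e : ℕ} {xs ps ss : List ℕ} (h : chk8 k f tb p r e xs ps ss = true) (hM : (2 ^ k - 1).Prime) :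
    HasSq (2 ^ k) := by
  unfold chk8 nm at h
  simp only [Bool.and_eq_true, decide_eq_true_eq, List.all_eq_true, List.mem_range, List.any_eq_true] at h
  obtain ⟨⟨⟨⟨⟨⟨⟨⟨⟨⟨⟨⟨⟨⟨⟨⟨⟨⟨⟨⟨⟨⟨⟨⟨⟨hk, hf1⟩, hf2⟩, htb⟩, hp⟩, hr⟩, he⟩, c0⟩, c1⟩, c2⟩, c3⟩, c4⟩, c5⟩, c6⟩, c7⟩, d1⟩, d2⟩, d3⟩, d4⟩,
    d5⟩, d6⟩, d7⟩, c8⟩, c9⟩, c10⟩, c11⟩ := h
  have hum : k ≠ 0 := by omega
  let F := GaloisField 2 k
  letI : Fintype F := Fintype.ofFinite F
  have hcard : Fintype.card F = 2 ^ k := by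
    rw [← Nat.card_eq_fintype_card]
    exact GaloisField.card 2 k hum
  have two : (2 : F) = 0 := by
    have := CharP.cast_eq_zero F 2
    exact_mod_cast this
  obtain ⟨z, hz⟩ := exists_root F k f hk hcard hf1 hf2 c0
  have hk1 : 1 ≤ k := by omega
  have h4k : 4 ≤ 2 ^ k := by
    calc 4 = 2 ^ 2 := by norm_num
      _ ≤ 2 ^ k := Nat.pow_le_pow_right (by norm_num) hk
  have PW : ∀ a e : ℕ, a < 2 ^ k → e < 2 ^ k → powm k f k a e < 2 ^ k ∧ ev z k (powm k f k a e) = (ev z k a) ^ e :=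
    fun a e ha he => ev_powm two z k f hk1 hf1 hf2 hz k a e ha he
  have MU : ∀ a b : ℕ, a < 2 ^ k → b < 2 ^ k → mulm k f k a b < 2 ^ k ∧ ev z k (mulm k f k a b) = ev z k a * ev z k b :=
    fun a b ha hb => ev_mulm two z k f hf1 hf2 hz a b ha hb
  have one : ev z k 1 = 1 := ev_one z k hk1
  have XO : ∀ a b : ℕ, ev z k (a ^^^ b) = ev z k a + ev z k b := fun a b => ev_xor two z k a b
  have hx : ∀ a b : ℕ, a < 2 ^ k → b < 2 ^ k → a ^^^ b < 2 ^ k := fun a b ha hb => Nat.xor_lt_two_pow ha hb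
  have hnk : 2 ^ k - 1 < 2 ^ k := by omega
  have hne : ∀ a : ℕ, a < 2 ^ k → powm k f k a (2 ^ k - 1) = 1 → ev z k a ≠ 0 := by
    intro a ha h1 h0
    have h3 := (PW a _ ha hnk).2
    rw [h1, one, h0, zero_pow (by omega)] at h3
    exact one_ne_zero h3
  have e3 : ev z k 3 = ev z k 2 + 1 := by
    have := XO 2 1
    rwa [one] at this
  obtain ⟨a, ha⟩ : ∃ a, a = ev z k 2 := ⟨_, rfl⟩
  obtain ⟨t, ht⟩ := (⟨_, rfl⟩ : ∃ t, t = ev z k tb)
  have ha0 : a ≠ 0 := ha ▸ hne 2 (by omega) c1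
  have ha1 : a + 1 ≠ 0 := by
    rw [ha, ← e3]
    exact hne 3 (by omega) c2
  have ha1' : a ≠ 1 := by
    intro h
    apply ha1
    rw [h]
    linear_combination two
  have hta : t * (a + 1) = a := by
    rw [ht, ha, ← e3, ← (MU tb 3 htb (by omega)).2, c3]
  obtain ⟨hord, hone, hgen⟩ := gen_of_prime (F := F) (M := 2 ^ k - 1) (by rw [hcard]; omega) hM a ha0 ha1'
  -- the set
  let U : F → Prop := fun x => ∃ y ∈ xs, x = ev z k y
  have hnm : ∀ w : ℕ, w < 2 ^ k → (∀ x ∈ xs, powm k f k (w ^^^ x) (2 ^ k - 1) = 1) → ¬ U (ev z k w) := by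
    rintro w hw h ⟨y, hy, hwy⟩
    apply hne _ (hx w y hw (c5 y hy)) (h y hy)
    rw [XO, hwy]
    linear_combination (ev z k y) * two
  have S : Sw F a (1 : F) t U := by
    refine ⟨two, ha0, ha1, hta, ?_, ?_, ?_, ?_⟩
    · rintro x ⟨y, hy, rfl⟩
      exact ⟨_, (c6 y hy).1.1, by rw [XO, one]⟩
    · rintro x ⟨y, hy, rfl⟩
      exact ⟨_, (c6 y hy).1.2, by rw [XO, ht, mul_one]⟩
    · rintro x ⟨y, hy, rfl⟩
      exact ⟨_, (c6 y hy).2, by rw [XO, (MU tb tb htb htb).2, ht, mul_one]⟩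
    · rintro x ⟨y, hy, rfl⟩
      have h2 := MU 2 y (by omega) (c5 y hy)
      rw [ha, ← h2.2]
      exact hnm _ h2.1 (c7 y hy)
  have hmem : ∀ i, i < 8 → xs.getD i 0 ∈ xs := by
    intro i hi
    rw [List.getD_eq_getElem _ _ (by omega)]
    exact List.getElem_mem _
  have hx0 : xs.getD 0 0 < 2 ^ k := c5 _ (hmem 0 (by norm_num))
  let P : ℕ → ℕ := fun n => ps.getD (n % 8) 0 + (n / 8) * (2 ^ k - 1)
  let s : ℕ → ℕ := fun n => ss.getD (n % 8) 0
  have hP : ∀ n, P n = ps.getD (n % 8) 0 + (n / 8) * (2 ^ k - 1) := fun n => rfl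
  have hs : ∀ n, s n = ss.getD (n % 8) 0 := fun n => rfl
  have haP : ∀ n, a ^ P n = ev z k (xs.getD (n % 8) 0) := by
    intro n
    obtain ⟨⟨⟨h1, h2⟩, _⟩, _⟩ := c8 (n % 8) (Nat.mod_lt _ (by norm_num))
    rw [hP, pow_add, mul_comm (n / 8), pow_mul, hone, one_pow, mul_one, ha, ← (PW 2 _ (by omega) h2).2, h1]
  have D : Lg F a (1 : F) U (2 ^ k - 1) P s := by
    refine ⟨hord, hone, by omega, hgen, ?_, ?_, ?_, ?_, ?_⟩
    · apply strictMono_nat_of_lt_succ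
      intro n
      rw [hP, hP]
      rcases Nat.lt_or_ge (n % 8) 7 with h | h
      · have h1 : (n + 1) % 8 = n % 8 + 1 := by omega
        have h2 : (n + 1) / 8 = n / 8 := by omega
        rw [h1, h2]
        have := c9 (n % 8) h
        omega
      · have h0 : n % 8 = 7 := by omega
        have h1 : (n + 1) % 8 = 0 := by omega
        have h2 : (n + 1) / 8 = n / 8 + 1 := by omega
        rw [h1, h2, h0, add_mul]
        omega
    · intro n
      rw [hP, hP]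
      have h1 : (n + 8) % 8 = n % 8 := by omega
      have h2 : (n + 8) / 8 = n / 8 + 1 := by omega
      rw [h1, h2, add_mul]
      ring
    · intro x
      constructor
      · rintro ⟨y, hy, rfl⟩
        obtain ⟨i, hi, rfl⟩ := List.getElem_of_mem hy
        refine ⟨i, ?_⟩
        rw [haP, Nat.mod_eq_of_lt (by omega), List.getD_eq_getElem _ _ hi]
      · rintro ⟨n, rfl⟩
        exact ⟨_, hmem (n % 8) (Nat.mod_lt _ (by norm_num)), haP n⟩
    · intro n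
      obtain ⟨⟨_, h3⟩, h4⟩ := c8 (n % 8) (Nat.mod_lt _ (by norm_num))
      rw [haP, haP, hs, Nat.mod_eq_of_lt h3, ← h4, XO, one]
    · intro n
      obtain ⟨m, _, hm⟩ := c11 (n % 8) (Nat.mod_lt _ (by norm_num))
      rcases Nat.eq_zero_or_pos m with h | h
      · rw [h, Function.iterate_zero, id] at hm
        exact ⟨0, by rw [Function.iterate_zero, id]; omega⟩
      · obtain ⟨m', rfl⟩ : ∃ m', m = m' + 1 := ⟨m - 1, by omega⟩
        refine ⟨m' + 1, ?_⟩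
        rw [Function.iterate_succ_apply] at hm ⊢
        rw [Nat.mod_mod] at hm
        exact hm
  have hev : ∀ w : ℕ, w < 2 ^ k → (∀ x ∈ xs, powm k f k (w ^^^ x) (2 ^ k - 1) = 1) → ∀ y : F, y = ev z k w → ¬ U y :=
    fun w hw h y hy => hy ▸ hnm w hw h
  refine square (F := F) hcard S _ (fun x hx => D.reach hx) one_ne_zero (ev z k (xs.getD 0 0)) (ev z k p) (ev z k r) (ev z k e)
    ⟨_, hmem 0 (by norm_num), rfl⟩ ?_ ?_ ?_ ?_ ?_ ?_ ?_
  · exact hev _ (hx _ _ hx0 hp) d1 _ (by rw [XO])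
  · exact hev _ (hx _ _ hx0 hr) d2 _ (by rw [XO])
  · exact hev _ (hx _ _ (hx _ _ hx0 hp) hr) d3 _ (by rw [XO, XO])
  · exact hev _ (hx _ _ hx0 he) d4 _ (by rw [XO])
  · exact hev _ (hx _ _ (hx _ _ hx0 hp) he) d5 _ (by rw [XO, XO])
  · exact hev _ (hx _ _ (hx _ _ hx0 hr) he) d6 _ (by rw [XO, XO])
  · exact hev _ (hx _ _ (hx _ _ (hx _ _ hx0 hp) hr) he) d7 _ (by rw [XO, XO, XO])

end Pool.Agent.H62.SW
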