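import Pool.Agent.H62.SW.Core

/-!
# The cycle of the switched map, the square (MP_2f0703_co)
-/

set_option autoImplicit false

namespace Pool.Agent.H62.SW

/-- the logarithms `P n` of the points of `U` (continued with period `M = q - 1`), `s` the involution `x ↦ x + v` on them -/
structure Lg (F : Type) [Field F] (a v : F) (U : F → Prop) (M : ℕ) (P s : ℕ → ℕ) : Prop where
  ord : ∀ i j : ℕ, a ^ i = a ^ j → i ≡ j [MOD M]
  one : a ^ M = 1
  M0 : 0 < M
  gen : ∀ x : F, x ≠ 0 → ∃ n : ℕ, x = a ^ n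
  mono : StrictMono P
  per : ∀ n, P (n + 8) = P n + M
  hU : ∀ x, U x ↔ ∃ n, x = a ^ P n
  hs : ∀ n, a ^ P n + v = a ^ P (s n)
  cyc : ∀ n, ∃ m, ((fun i => s i + 1)^[m] n) % 8 = 0

variable {F : Type} [Field F] {a v t : F} {U : F → Prop} {M : ℕ} {P s : ℕ → ℕ}

theorem Lg.per' (D : Lg F a v U M P s) (n c : ℕ) : P (n + 8 * c) = P n + c * M := by
  induction c with
  | zero => simp
  | succ c ih =>
    have h1 : n + 8 * (c + 1) = (n + 8 * c) + 8 := by ring
    rw [h1, D.per, ih]; ring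

theorem Lg.pow_add (D : Lg F a v U M P s) (j c : ℕ) : a ^ (j + c * M) = a ^ j := by
  rw [_root_.pow_add, mul_comm c M, pow_mul, D.one, one_pow, mul_one]

theorem Lg.between (D : Lg F a v U M P s) {n j : ℕ} (h1 : P n < j) (h2 : j < P (n + 1)) : ¬ U (a ^ j) := by
  intro h
  obtain ⟨l, hl⟩ := (D.hU _).1 h
  have h3 := D.ord _ _ hl
  rcases Nat.le_total (P l) j with h4 | h4
  · obtain ⟨c, hc⟩ := (Nat.modEq_iff_dvd' h4).1 h3.symm
    have h5 : j = P (l + 8 * c) := by rw [D.per', mul_comm c M]; omega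
    rw [h5] at h1 h2
    have := D.mono.lt_iff_lt.1 h1
    have := D.mono.lt_iff_lt.1 h2
    omega
  · obtain ⟨c, hc⟩ := (Nat.modEq_iff_dvd' h4).1 h3
    have h5 : P l = j + c * M := by rw [mul_comm c M]; omega
    have h6 : P (n + 8 * c) < P l := by rw [D.per', h5]; omega
    have h7 : P l < P (n + 1 + 8 * c) := by rw [D.per', h5]; omega
    have := D.mono.lt_iff_lt.1 h6
    have := D.mono.lt_iff_lt.1 h7
    omega

theorem walk (j m : ℕ) (h : ∀ i < m, ¬ U (a ^ (j + i))) : (f a v U)^[m] (a ^ j) = a ^ (j + m) := by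
  induction m with
  | zero => simp
  | succ m ih =>
    rw [Function.iterate_succ_apply', ih (fun i hi => h i (by omega)), f_out _ (h m (by omega)), ← pow_succ']
    rfl

theorem Lg.step (D : Lg F a v U M P s) (n : ℕ) : ∃ m, (f a v U)^[m] (a ^ P n) = a ^ P (s n + 1) := by
  have h1 : f a v U (a ^ P n) = a ^ (P (s n) + 1) := by
    rw [f_in _ ((D.hU _).2 ⟨n, rfl⟩), pow_succ', ← D.hs]; ring
  have h2 : P (s n) < P (s n + 1) := D.mono (Nat.lt_succ_self _)
  refine ⟨(P (s n + 1) - (P (s n) + 1)) + 1, ?_⟩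
  rw [Function.iterate_succ_apply, h1, walk _ _ (fun i hi => D.between (n := s n) (by omega) (by omega))]
  congr 1
  omega

theorem Lg.reach0 (D : Lg F a v U M P s) (n m : ℕ) :
    ∃ k, (f a v U)^[k] (a ^ P n) = a ^ P ((fun i => s i + 1)^[m] n) := by
  induction m with
  | zero => exact ⟨0, rfl⟩
  | succ m ih =>
    obtain ⟨k, hk⟩ := ih
    obtain ⟨l, hl⟩ := D.step ((fun i => s i + 1)^[m] n)
    refine ⟨l + k, ?_⟩
    rw [Function.iterate_add_apply, hk, hl, Function.iterate_succ_apply']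

theorem Lg.reach (D : Lg F a v U M P s) {x : F} (hx : x ≠ 0) : ∃ k, (f a v U)^[k] x = a ^ P 0 := by
  obtain ⟨j, rfl⟩ := D.gen x hx
  have hj : P 0 < j + (P 0 + 1) * M := by
    have := Nat.mul_le_mul_left (P 0 + 1) D.M0
    omega
  rw [← D.pow_add j (P 0 + 1)]
  obtain ⟨j', hj'⟩ : ∃ j', j' = j + (P 0 + 1) * M := ⟨_, rfl⟩
  rw [← hj'] at hj ⊢
  have hex : ∃ n, j' ≤ P n := ⟨j', D.mono.le_apply⟩
  classical
  obtain ⟨n, hn⟩ : ∃ n, n = Nat.find hex := ⟨_, rfl⟩
  have h1 : j' ≤ P n := hn ▸ Nat.find_spec hex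
  have h2 : n ≠ 0 := by
    rintro h0
    rw [h0] at h1
    omega
  obtain ⟨m, rfl⟩ : ∃ m, n = m + 1 := ⟨n - 1, by omega⟩
  have h3 : P m < j' := by
    have := Nat.find_min hex (m := m) (by omega)
    omega
  have h4 : (f a v U)^[P (m + 1) - j'] (a ^ j') = a ^ P (m + 1) := by
    rw [walk _ _ (fun i hi => D.between (n := m) (by omega) (by omega))]
    congr 1
    omega
  obtain ⟨l, hl⟩ := D.cyc (m + 1)
  obtain ⟨k, hk⟩ := D.reach0 (m + 1) l
  refine ⟨k + (P (m + 1) - j'), ?_⟩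
  rw [Function.iterate_add_apply, h4, hk]
  obtain ⟨r, hr⟩ : ∃ r, r = (fun i => s i + 1)^[l] (m + 1) := ⟨_, rfl⟩
  rw [← hr] at hl ⊢
  have h5 : r = 0 + 8 * (r / 8) := by omega
  rw [h5, D.per', D.pow_add]

end Pool.Agent.H62.SW
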