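import Pool.Agent.H62.SW.Crt

/-!
# The Mersenne exponents 7, 13, 17, 19, 31 (MP_2f0703_co)
-/

set_option autoImplicit false

namespace Pool.Agent.H62.SW

theorem pr31 : Nat.Prime 2147483647 :=
  Pool.Agent.H62.GE.prime_of_tdiv (k := 15) (by decide +kernel) (by norm_num) (by norm_num) (by norm_num)

theorem c7 : chk8 7 131 127 31 76 70 [6, 120, 44, 82, 7, 45, 83, 121] [8, 24, 33, 44, 56, 77, 94, 123] [4, 7, 5, 6, 0, 2, 3, 1] = true := by decide +kernel

theorem sq7 : HasSq (2 ^ 7) := of_chk8 c7 (by norm_num)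

theorem c13 : chk8 13 8219 8183 1950 4855 4459 [1717, 3096, 5102, 3097, 6467, 5103, 1716, 6466] [2172, 2454, 3135, 3911, 5219, 5689, 7292, 7393] [6, 3, 5, 1, 7, 2, 0, 4] = true := by decide +kernel

theorem sq13 : HasSq (2 ^ 13) := of_chk8 c13 (by norm_num)

theorem c17 : chk8 17 131081 131065 31191 77679 71334 [81644, 49428, 103492, 49429, 27581, 81645, 103493, 27580] [11143, 12415, 19664, 39488, 42336, 53745, 76091, 98009] [5, 3, 6, 1, 7, 0, 2, 4] = true := by decide +kernel

theorem sq17 : HasSq (2 ^ 17) := of_chk8 c17 (by norm_num)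

theorem c19 : chk8 19 524327 524259 124762 310715 285333 [30150, 188262, 30151, 336005, 494117, 336004, 494116, 188263] [26338, 68560, 153687, 319619, 350922, 397850, 431015, 504788] [2, 7, 0, 5, 6, 3, 4, 1] = true := by decide +kernel

theorem sq19 : HasSq (2 ^ 19) := of_chk8 c19 (by norm_num)

theorem c31 : chk8 31 2147483657 2147483641 511025151 1272686666 1168723366 [1598919652, 169395893, 548563996, 1978087756, 1598919653, 169395892, 548563997, 1978087757] [685787654, 689604040, 759775733, 995745862, 1038543299, 1344918387, 1796036401, 2057989750] [4, 5, 6, 7, 0, 1, 2, 3] = true := by decide +kernel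

theorem sq31 : HasSq (2 ^ 31) := of_chk8 c31 (by
  have h : 2 ^ 31 - 1 = 2147483647 := by norm_num
  rw [h]
  exact pr31)

end Pool.Agent.H62.SW
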