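import Pool.Agent.H62.SW.Cyc

/-!
# The square of the switched map (MP_2f0703_co)
-/

set_option autoImplicit false

namespace Pool.Agent.H62.SW

/-- the conclusion: a D-type latin square of order `n`, not based on a group, whose square is latin -/
def HasSq (n : ℕ) : Prop := ∃ L : Fin n → Equiv.Perm (Fin n),
    (∀ j : Fin n, Function.Injective (fun i => L i j)) ∧
    (∀ i : Fin n, (∃! x, L i x = x) ∧ ∀ x y, L i x ≠ x → L i y ≠ y → ∃ k : ℕ, ((L i) ^ k) x = y) ∧
    (¬ ∃ (G : Type) (_ : Group G) (r c s : Fin n ≃ G), ∀ i j, s (L i j) = r i * c j) ∧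
    ∀ j : Fin n, Function.Injective (fun i => (L i * L i) j)

theorem square {n : ℕ} {F : Type} [Field F] [Fintype F] (hcard : Fintype.card F = n) {a v t : F} {U : F → Prop}
    (S : Sw F a v t U) (w : F) (hre : ∀ x : F, x ≠ 0 → ∃ k, (f a v U)^[k] x = w) (hv : v ≠ 0) (u p r e : F) (hu : U u) (h1 : ¬ U (u + p))
    (h2 : ¬ U (u + r)) (h3 : ¬ U (u + p + r)) (h4 : ¬ U (u + e)) (h5 : ¬ U (u + p + e)) (h6 : ¬ U (u + r + e))
    (h7 : ¬ U (u + p + r + e)) : HasSq n := by
  classical
  have two := S.two
  let E : F ≃ Fin n := Fintype.equivFinOfCardEq hcard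
  let Q : Equiv.Perm F := Equiv.ofBijective (f a v U) (Finite.injective_iff_bijective.1 fun x y h => S.inj h)
  have hQ : ∀ x, Q x = f a v U x := fun x => rfl
  have hQk : ∀ (k : ℕ) (x : F), (Q ^ k) x = (f a v U)^[k] x := by
    intro k
    induction k with
    | zero => intro x; rfl
    | succ k ih =>
      intro x
      rw [pow_succ, Equiv.Perm.mul_apply, ih, Function.iterate_succ_apply, hQ]
  have hinv : ∀ i x : F, i + (i + x) = x := by
    intro i x
    linear_combination i * two
  let T : F → Equiv.Perm F := fun i => ⟨fun x => i + x, fun x => i + x, hinv i, hinv i⟩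
  let row : F → Equiv.Perm F := fun i => (T i).trans (Q.trans (T i))
  have hrow : ∀ i x, row i x = i + f a v U (i + x) := fun i x => rfl
  let L : Fin n → Equiv.Perm (Fin n) := fun i => (E.symm.trans (row (E.symm i))).trans E
  have hL : ∀ i x, L i x = E (E.symm i + f a v U (E.symm i + E.symm x)) := fun i x => rfl
  have hpow : ∀ (i : Fin n) (l : ℕ) (x : Fin n),
      ((L i) ^ l) x = E (E.symm i + (Q ^ l) (E.symm i + E.symm x)) := by
    intro i l
    induction l with
    | zero =>
      intro x
      show x = E (E.symm i + (E.symm i + E.symm x))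
      rw [hinv, Equiv.apply_symm_apply]
    | succ l ih =>
      intro x
      rw [pow_succ, Equiv.Perm.mul_apply, ih, hL, Equiv.symm_apply_apply, hinv, pow_succ, Equiv.Perm.mul_apply, hQ]
  refine ⟨L, ?_, ?_, ?_, ?_⟩
  · intro j i i' hij
    have e1 : L i j = L i' j := hij
    rw [hL, hL] at e1
    have e3 := E.injective e1
    have e4 : f a v U (E.symm i + E.symm j) + (E.symm i + E.symm j) =
        f a v U (E.symm i' + E.symm j) + (E.symm i' + E.symm j) := by
      linear_combination e3
    exact E.symm.injective (add_right_cancel (S.inj1 e4))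
  · intro i
    have fix : ∀ x, L i x = x ↔ x = i := by
      intro x
      rw [hL]
      constructor
      · intro hx
        have e1 : E.symm i + f a v U (E.symm i + E.symm x) = E.symm x := by
          apply E.injective; rw [hx, Equiv.apply_symm_apply]
        have e3 : f a v U (E.symm i + E.symm x) + (E.symm i + E.symm x) = f a v U 0 + 0 := by
          rw [S.f_zero]
          linear_combination e1 + E.symm x * two
        have e4 := S.inj1 e3
        apply E.symm.injective
        linear_combination e4 - E.symm i * two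
      · rintro rfl
        have e1 : E.symm x + E.symm x = 0 := by linear_combination E.symm x * two
        rw [e1, S.f_zero, add_zero, Equiv.apply_symm_apply]
    refine ⟨⟨i, (fix i).2 rfl, fun x hx => (fix x).1 hx⟩, ?_⟩
    intro x y hx hy
    have hne : ∀ z, L i z ≠ z → E.symm i + E.symm z ≠ 0 := by
      intro z hz h0
      apply hz
      apply (fix z).2
      apply E.symm.injective
      linear_combination h0 - E.symm i * two
    obtain ⟨k, hk⟩ := hre _ (hne x hx)
    obtain ⟨l, hl⟩ := hre _ (hne y hy)
    rw [← hQk] at hk hl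
    have hfin := isOfFinOrder_of_finite Q
    obtain ⟨m, hm⟩ : ∃ m : ℕ, Q ^ m = (Q ^ l)⁻¹ := by
      have e3 : (Q ^ l)⁻¹ ∈ Submonoid.powers Q := by
        rw [hfin.mem_powers_iff_mem_zpowers]
        exact (Subgroup.zpowers Q).inv_mem ((Subgroup.zpowers Q).pow_mem (Subgroup.mem_zpowers _) l)
      obtain ⟨m, hm⟩ := e3
      exact ⟨m, hm⟩
    refine ⟨m + k, ?_⟩
    rw [hpow, pow_add, Equiv.Perm.mul_apply, hk, ← hl, hm, ← Equiv.Perm.mul_apply, inv_mul_cancel, Equiv.Perm.one_apply, hinv,
      Equiv.apply_symm_apply]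
  · rintro ⟨G, hG, r', c', s', H⟩
    have H' : ∀ i j : F, s' (E (i + f a v U (i + j))) = r' (E i) * c' (E j) := by
      intro i j
      have := H (E i) (E j)
      rwa [hL, Equiv.symm_apply_apply, Equiv.symm_apply_apply] at this
    have key : ∀ i1 i2 j1 j2 : F, s' (E (i2 + f a v U (i2 + j2))) = s' (E (i2 + f a v U (i2 + j1))) *
        (s' (E (i1 + f a v U (i1 + j1))))⁻¹ * s' (E (i1 + f a v U (i1 + j2))) := by
      intro i1 i2 j1 j2
      rw [H', H', H', H']
      group
    have k1 := key (u + p) u r 0
    have k2 := key (u + p + a * e) (u + a * e) (r + (a + 1) * e) ((a + 1) * e)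
    have out : ∀ i j i' j' : F, i' = i + a * e → j' = j + (a + 1) * e → ¬ U (i + j) → ¬ U (i + j + e) →
        i' + f a v U (i' + j') = i + f a v U (i + j) := by
      intro i j i' j' hi hj hn hn'
      have e1 : i' + j' = i + j + e := by rw [hi, hj]; linear_combination (a * e) * two
      rw [e1, f_out _ hn, f_out _ hn', hi]
      linear_combination (a * e) * two
    have o1 := out u r (u + a * e) (r + (a + 1) * e) rfl rfl h2 h6
    have o2 := out (u + p) r (u + p + a * e) (r + (a + 1) * e) rfl rfl h3 h7
    have o3 := out (u + p) 0 (u + p + a * e) ((a + 1) * e) rfl (by ring) (by rw [add_zero]; exact h1)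
      (by rw [add_zero]; exact h5)
    rw [o1, o2, o3, ← k1] at k2
    have e1 := E.injective (s'.injective k2)
    have e2 : u + a * e + (a + 1) * e = u + e := by linear_combination (a * e) * two
    rw [e2, f_out _ h4, add_zero, f_in _ hu] at e1
    have e3 : a * v = 0 := by linear_combination (a * e) * two - e1
    rcases mul_eq_zero.1 e3 with h | h
    · exact S.a0 h
    · exact hv h
  · intro j i i' hij
    have e1 : ((L i) ^ 2) j = ((L i') ^ 2) j := by
      rw [pow_two, pow_two]; exact hij
    rw [hpow, hpow] at e1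
    have e3 := E.injective e1
    rw [hQk, hQk] at e3
    have e6 : ∀ x, (f a v U)^[2] x = f a v U (f a v U x) := fun x => rfl
    rw [e6, e6] at e3
    have e4 : f a v U (f a v U (E.symm i + E.symm j)) + (E.symm i + E.symm j) =
        f a v U (f a v U (E.symm i' + E.symm j)) + (E.symm i' + E.symm j) := by
      linear_combination e3
    exact E.symm.injective (add_right_cancel (S.inj2 e4))

theorem exists_out {F : Type} [Fintype F] [DecidableEq F] (S : Finset F) (h : S.card < Fintype.card F) : ∃ x, x ∉ S := by
  by_contra hh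
  push Not at hh
  have : S = Finset.univ := Finset.eq_univ_of_forall hh
  rw [this, Finset.card_univ] at h
  exact lt_irrefl _ h

/-- the switching theorem -/
theorem switch {k : ℕ} {F : Type} [Field F] [Fintype F] [DecidableEq F] (hcard : Fintype.card F = 2 ^ k) (a v t : F) (U : Finset F)
    (ha : a ≠ 0) (hv : v ≠ 0) (ha1 : a + 1 ≠ 0) (ht : t * (a + 1) = a) (hU : U.Nonempty) (hc : 4 * U.card < 2 ^ k)
    (hinv : ∀ x ∈ U, x + v ∈ U ∧ x + t * v ∈ U ∧ x + t * t * v ∈ U ∧ a * x ∉ U)
    (hcyc : ∀ x y : F, x ≠ 0 → y ≠ 0 → ∃ n : ℕ, (fun x => a * x + if x ∈ U then a * v else 0)^[n] x = y) : HasSq (2 ^ k) := by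
  have two : (2 : F) = 0 := by
    have h1 : ((2 ^ k : ℕ) : F) = 0 := by rw [← hcard]; exact Nat.cast_card_eq_zero F
    push_cast at h1
    have hk : k ≠ 0 := by
      rintro rfl
      rw [pow_zero] at h1
      exact one_ne_zero h1
    exact (pow_eq_zero_iff hk).1 h1
  have S : Sw F a v t (fun x => x ∈ U) :=
    ⟨two, ha, ha1, ht, fun x hx => (hinv x hx).1, fun x hx => (hinv x hx).2.1, fun x hx => (hinv x hx).2.2.1,
      fun x hx => (hinv x hx).2.2.2⟩
  obtain ⟨u, hu⟩ := hU
  have hfe : f a v (fun x => x ∈ U) = fun x => a * x + if x ∈ U then a * v else 0 := by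
    funext x
    unfold f
    congr 1
    by_cases h : x ∈ U
    · rw [if_pos h, if_pos h]
    · rw [if_neg h, if_neg h]
  have im : ∀ (S : Finset F) (b x : F), x ∉ S.image (fun y => b + y) → b + x ∉ S := by
    intro S b x h h'
    apply h
    rw [Finset.mem_image]
    exact ⟨b + x, h', by linear_combination b * two⟩
  have cim : ∀ b : F, (U.image (fun y => b + y)).card ≤ U.card := fun b => Finset.card_image_le
  have hp0 : 1 ≤ U.card := Finset.card_pos.2 ⟨u, hu⟩
  obtain ⟨p, hp⟩ := exists_out (U.image fun y => u + y) (by rw [hcard]; have := cim u; omega)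
  obtain ⟨r, hr⟩ := exists_out (U.image (fun y => u + y) ∪ U.image (fun y => (u + p) + y)) (by
    rw [hcard]
    have h1 := Finset.card_union_le (U.image fun y => u + y) (U.image fun y => (u + p) + y)
    have := cim u
    have := cim (u + p)
    omega)
  rw [Finset.mem_union, not_or] at hr
  obtain ⟨e, he⟩ := exists_out ((U.image (fun y => u + y) ∪ U.image (fun y => (u + p) + y)) ∪
      (U.image (fun y => (u + r) + y) ∪ U.image (fun y => (u + p + r) + y))) (by
    rw [hcard]
    have h1 := Finset.card_union_le (U.image fun y => u + y) (U.image fun y => (u + p) + y)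
    have h2 := Finset.card_union_le (U.image fun y => (u + r) + y) (U.image fun y => (u + p + r) + y)
    have h3 := Finset.card_union_le (U.image (fun y => u + y) ∪ U.image (fun y => (u + p) + y))
      (U.image (fun y => (u + r) + y) ∪ U.image (fun y => (u + p + r) + y))
    have := cim u
    have := cim (u + p)
    have := cim (u + r)
    have := cim (u + p + r)
    omega)
  rw [Finset.mem_union, not_or, Finset.mem_union, not_or, Finset.mem_union, not_or] at he
  refine square hcard S u (fun x hx => ?_) hv u p r e hu (im _ _ _ hp) (im _ _ _ hr.1) (im _ _ _ hr.2) (im _ _ _ he.1.1)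
    (im _ _ _ he.1.2) (im _ _ _ he.2.1) (im _ _ _ he.2.2)
  rw [hfe]
  exact hcyc x u hx (fun h => S.zero (h ▸ hu))

end Pool.Agent.H62.SW
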